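import Mathlib

set_option autoImplicit false

open Finset

namespace Pool.Agent.Lib.MP595dad.AC

/-- The finite family `L` of subsets of `X` is the set of lines of a projective plane of order `q`. -/
structure Pl {X : Type*} [DecidableEq X] (L : Finset (Finset X)) (q : ℕ) : Prop where
  two : 1 < q
  card : #L = q ^ 2 + q + 1
  size : ∀ m ∈ L, #m = q + 1
  line : ∀ x y, x ≠ y → ∃ m ∈ L, x ∈ m ∧ y ∈ m
  uniq : ∀ m ∈ L, ∀ n ∈ L, ∀ x y, x ≠ y → x ∈ m → y ∈ m → x ∈ n → y ∈ n → m = n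
  meet : ∀ m ∈ L, ∀ n ∈ L, ∃ x, x ∈ m ∧ x ∈ n
  deg : ∀ x, #{m ∈ L | x ∈ m} = q + 1

variable {X : Type*} [DecidableEq X] {L L' : Finset (Finset X)} {q : ℕ}

/-- the number of lines of `L \ L'` through `x` -/
def r (L L' : Finset (Finset X)) (x : X) : ℕ := #{m ∈ L \ L' | x ∈ m}

/-- the number of common lines through `x` -/
def u (L L' : Finset (Finset X)) (x : X) : ℕ := #{m ∈ L ∩ L' | x ∈ m}

lemma r_add_u (h : Pl L q) (L' : Finset (Finset X)) (x : X) : r L L' x + u L L' x = q + 1 := by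
  rw [← h.deg x, r, u, ← card_union_of_disjoint]
  · congr 1
    ext m
    simp only [mem_union, mem_filter, mem_sdiff, mem_inter]
    tauto
  · rw [disjoint_left]
    intro m hm hm'
    simp only [mem_filter, mem_sdiff, mem_inter] at hm hm'
    tauto

lemma u_comm (L L' : Finset (Finset X)) (x : X) : u L L' x = u L' L x := by
  rw [u, u, inter_comm]

lemma r_comm (h : Pl L q) (h' : Pl L' q) (x : X) : r L L' x = r L' L x := by
  have h1 := r_add_u h L' x
  have h2 := r_add_u h' L x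
  rw [u_comm L' L x] at h2
  omega

lemma card_comm (h : Pl L q) (h' : Pl L' q) : #(L \ L') = #(L' \ L) := by
  have h1 := card_sdiff_add_card_inter L L'
  have h2 := card_sdiff_add_card_inter L' L
  rw [inter_comm] at h2
  have h3 := h.card
  have h4 := h'.card
  omega

lemma inter_one (h : Pl L q) {m n : Finset X} (hm : m ∈ L) (hn : n ∈ L) (hmn : m ≠ n) :
    #(m ∩ n) = 1 := by
  obtain ⟨x, hx, hx'⟩ := h.meet m hm n hn
  rw [card_eq_one]
  refine ⟨x, ?_⟩
  ext y
  simp only [mem_inter, mem_singleton]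
  constructor
  · rintro ⟨h1, h2⟩
    by_contra hne
    exact hmn (h.uniq m hm n hn y x hne h1 hx h2 hx')
  · rintro rfl
    exact ⟨hx, hx'⟩

lemma eq_of_two (h : Pl L q) {m n : Finset X} (hm : m ∈ L) (hn : n ∈ L) (h2 : 2 ≤ #(m ∩ n)) :
    m = n := by
  by_contra hne
  have := inter_one h hm hn hne
  omega

/-- the sum of `r` over a new line -/
lemma sum_r (h : Pl L q) (h' : Pl L' q) {m' : Finset X} (hm' : m' ∈ L' \ L) :
    ∑ x ∈ m', r L L' x = #(L \ L') + q := by
  have h1 : ∑ x ∈ m', r L L' x = ∑ x ∈ m', #{n ∈ L' \ L | x ∈ n} := by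
    refine sum_congr rfl fun x _ => ?_
    rw [r_comm h h' x, r]
  have h2 : ∑ x ∈ m', #{n ∈ L' \ L | x ∈ n} = ∑ n ∈ L' \ L, #{x ∈ m' | x ∈ n} := by
    have := sum_card_bipartiteAbove_eq_sum_card_bipartiteBelow (s := m') (t := L' \ L)
      (fun (x : X) (n : Finset X) => x ∈ n)
    simpa only [bipartiteAbove, bipartiteBelow] using this
  have h3 : ∀ n ∈ L' \ L, #{x ∈ m' | x ∈ n} = if n = m' then q + 1 else 1 := by
    intro n hn
    rw [mem_sdiff] at hn hm'
    have h4 : ({x ∈ m' | x ∈ n} : Finset X) = m' ∩ n := by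
      ext x
      simp only [mem_filter, mem_inter]
    rw [h4]
    split_ifs with h5
    · rw [h5, inter_self, h'.size m' hm'.1]
    · exact inter_one h' hm'.1 hn.1 (Ne.symm h5)
  rw [h1, h2, sum_congr rfl h3, ← add_sum_erase _ _ hm', if_pos rfl]
  have h6 : ∑ x ∈ (L' \ L).erase m', (if x = m' then q + 1 else 1) = #((L' \ L).erase m') := by
    rw [card_eq_sum_ones]
    refine sum_congr rfl fun x hx => ?_
    rw [if_neg (ne_of_mem_erase hx)]
  rw [h6, card_erase_of_mem hm', ← card_comm h h']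
  have h7 : 0 < #(L \ L') := by
    rw [card_comm h h']
    exact card_pos.2 ⟨m', hm'⟩
  omega

lemma fact1 (h : Pl L q) (h' : Pl L' q) {m' : Finset X} (hm' : m' ∈ L' \ L) {κ : ℕ}
    (hκ : ∀ n ∈ L, #(n ∩ m') ≤ κ + 1) {x : X} (hx : x ∈ m') : q ≤ r L L' x * κ := by
  rw [mem_sdiff] at hm'
  have h1 : m'.erase x ⊆ ({n ∈ L \ L' | x ∈ n} : Finset (Finset X)).biUnion
      fun n => (n ∩ m').erase x := by
    intro y hy
    rw [mem_erase] at hy
    obtain ⟨n, hn, hxn, hyn⟩ := h.line x y (Ne.symm hy.1)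
    rw [mem_biUnion]
    refine ⟨n, ?_, ?_⟩
    · rw [mem_filter, mem_sdiff]
      refine ⟨⟨hn, fun hn' => ?_⟩, hxn⟩
      have := h'.uniq n hn' m' hm'.1 x y (Ne.symm hy.1) hxn hyn hx hy.2
      rw [this] at hn
      exact hm'.2 hn
    · rw [mem_erase, mem_inter]
      exact ⟨hy.1, hyn, hy.2⟩
  have h2 := (card_le_card h1).trans card_biUnion_le
  rw [card_erase_of_mem hx, h'.size m' hm'.1] at h2
  have h3 : ∑ n ∈ ({n ∈ L \ L' | x ∈ n} : Finset (Finset X)), #((n ∩ m').erase x) ≤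
      ∑ _n ∈ ({n ∈ L \ L' | x ∈ n} : Finset (Finset X)), κ := by
    refine sum_le_sum fun n hn => ?_
    rw [mem_filter, mem_sdiff] at hn
    rw [card_erase_of_mem (mem_inter.2 ⟨hn.2, hx⟩)]
    have := hκ n hn.1.1
    omega
  rw [sum_const, smul_eq_mul] at h3
  have h4 := h2.trans h3
  rw [r]
  omega

lemma fact2 (h : Pl L q) (h' : Pl L' q) {m' m : Finset X} (hm' : m' ∈ L' \ L) (hm : m ∈ L)
    {x : X} (hx : x ∈ m' \ m) : #(m ∩ m') ≤ r L L' x := by
  rw [mem_sdiff] at hm' hx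
  rw [r]
  refine card_le_card_of_forall_subsingleton (fun (z : X) (n : Finset X) => z ∈ n) ?_ ?_
  · intro z hz
    rw [mem_inter] at hz
    have hne : x ≠ z := by
      rintro rfl
      exact hx.2 hz.1
    obtain ⟨n, hn, hxn, hzn⟩ := h.line x z hne
    refine ⟨n, ?_, hzn⟩
    rw [mem_filter, mem_sdiff]
    refine ⟨⟨hn, fun hn' => ?_⟩, hxn⟩
    have := h'.uniq n hn' m' hm'.1 x z hne hxn hzn hx.1 hz.2
    rw [this] at hn
    exact hm'.2 hn
  · intro n hn z hz z' hz'
    rw [mem_filter, mem_sdiff] at hn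
    simp only [mem_inter] at hz hz'
    obtain ⟨hz, hz2⟩ := hz
    obtain ⟨hz', hz2'⟩ := hz'
    by_contra hne
    have := h.uniq m hm n hn.1.1 z z' hne hz.1 hz'.1 hz2 hz2'
    rw [this] at hx
    exact hx.2 hn.2

/-- the size condition -/
def Few (q s : ℕ) : Prop := (s : ℝ) ≤ q * √q - q

lemma near (h : Pl L q) (h' : Pl L' q) (hs : Few q #(L \ L')) {m' : Finset X} (hm' : m' ∈ L' \ L) :
    ∃ m ∈ L, (#(m' \ m) : ℝ) < √q ∧ 2 ≤ #(m ∩ m') ∧ 2 ≤ √(q : ℝ) := by
  have hLne : L.Nonempty := by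
    rw [← card_pos, h.card]
    positivity
  obtain ⟨m, hm, hmax⟩ := exists_max_image L (fun n => #(n ∩ m')) hLne
  have hm'' := mem_sdiff.1 hm'
  have hq := h.two
  -- the maximum is at least two
  have hk2 : 2 ≤ #(m ∩ m') := by
    have h1 : 1 < #m' := by
      rw [h'.size m' hm''.1]
      omega
    obtain ⟨x, hx, y, hy, hxy⟩ := one_lt_card.1 h1
    obtain ⟨n, hn, hxn, hyn⟩ := h.line x y hxy
    refine le_trans ?_ (hmax n hn)
    exact one_lt_card.2 ⟨x, mem_inter.2 ⟨hxn, hx⟩, y, mem_inter.2 ⟨hyn, hy⟩, hxy⟩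
  obtain ⟨κ, hκ⟩ : ∃ κ, #(m ∩ m') = κ + 1 := ⟨#(m ∩ m') - 1, by omega⟩
  have hκ1 : 1 ≤ κ := by omega
  have f1 : ∀ x ∈ m', q ≤ r L L' x * κ := fun x hx =>
    fact1 h h' hm' (fun n hn => (hmax n hn).trans hκ.le) hx
  have f2 : ∀ x ∈ m' \ m, κ + 1 ≤ r L L' x := fun x hx => hκ ▸ fact2 h h' hm' hm hx
  have f3 := sum_r h h' hm'
  have hcard : #(m' \ m) + (κ + 1) = q + 1 := by
    have := card_sdiff_add_card_inter m' m
    rw [inter_comm, hκ, h'.size m' hm''.1] at this
    exact this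
  set s := #(L \ L') with hsdef
  have hs' : (s : ℝ) ≤ q * √q - q := hs
  set w := √(q : ℝ) with hw
  have hw2 : w ^ 2 = q := Real.sq_sqrt (Nat.cast_nonneg q)
  have hw1 : 1 < w := by
    rw [hw, Real.lt_sqrt (by norm_num)]
    have : (1 : ℝ) < q := by exact_mod_cast hq
    simpa using this
  have hqR : (q : ℝ) = w ^ 2 := hw2.symm
  -- κ ≥ w
  have hκw : w ≤ κ := by
    by_contra hcon
    push Not at hcon
    have h1 : ∀ x ∈ m', w ≤ (r L L' x : ℝ) := by
      intro x hx
      have h2 : (q : ℝ) ≤ r L L' x * κ := by exact_mod_cast f1 x hx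
      rw [hqR] at h2
      by_contra hc
      push Not at hc
      have hκ0 : (0 : ℝ) < κ := by exact_mod_cast hκ1
      nlinarith
    have h2 : (#m' : ℝ) * w ≤ ∑ x ∈ m', (r L L' x : ℝ) := by
      have := card_nsmul_le_sum m' (fun x => (r L L' x : ℝ)) w h1
      simpa using this
    have h3 : ∑ x ∈ m', (r L L' x : ℝ) = (s : ℝ) + q := by exact_mod_cast f3
    rw [h3, h'.size m' hm''.1] at h2
    push_cast at h2
    rw [hqR] at h2 hs'
    nlinarith [sq_nonneg w]
  -- the main inequality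
  have hmain : #(m' \ m) * κ + 1 ≤ s := by
    have h1 : ∑ x ∈ m', r L L' x = ∑ x ∈ m' \ m, r L L' x + ∑ x ∈ m' ∩ m, r L L' x := by
      rw [← sum_union]
      · rw [sdiff_union_inter]
      · exact disjoint_sdiff_inter m' m
    have h2 : #(m' \ m) * (κ + 1) ≤ ∑ x ∈ m' \ m, r L L' x := by
      have := card_nsmul_le_sum (m' \ m) (fun x => r L L' x) (κ + 1) f2
      simpa using this
    have h3 : #(m' ∩ m) * 1 ≤ ∑ x ∈ m' ∩ m, r L L' x := by
      have := card_nsmul_le_sum (m' ∩ m) (fun x => r L L' x) 1 (fun x hx => by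
        have h4 := f1 x (mem_inter.1 hx).1
        by_contra hc
        have h5 : r L L' x = 0 := by omega
        rw [h5, zero_mul] at h4
        omega)
      simpa using this
    rw [f3] at h1
    have h6 : #(m' ∩ m) = κ + 1 := by
      rw [inter_comm]
      exact hκ
    rw [h6] at h3
    have h5 : #(m' \ m) * (κ + 1) = #(m' \ m) * κ + #(m' \ m) := by ring
    omega
  set a := #(m' \ m) with ha
  have haκ : (a : ℝ) + κ = w ^ 2 := by
    rw [← hqR]
    have : a + κ = q := by omega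
    exact_mod_cast this
  have hmainR : (a : ℝ) * κ + 1 ≤ s := by exact_mod_cast hmain
  rw [hqR] at hs'
  have ha0 : (0 : ℝ) ≤ a := Nat.cast_nonneg a
  -- κ > q - w
  have haw : (a : ℝ) < w := by
    by_contra hcon
    push Not at hcon
    nlinarith [mul_nonneg (sub_nonneg.2 hcon) (sub_nonneg.2 hκw)]
  refine ⟨m, hm, haw, hk2, ?_⟩
  have ha1 : 1 ≤ a := by
    rw [ha, Nat.one_le_iff_ne_zero, ne_eq, card_eq_zero, sdiff_eq_empty_iff_subset]
    intro hsub
    have := eq_of_subset_of_card_le hsub (by rw [h.size m hm, h'.size m' hm''.1])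
    rw [← this] at hm
    exact hm''.2 hm
  have h6 : q ≤ s := by
    have h7 : a + κ = q := by omega
    obtain ⟨a', ha'⟩ := Nat.exists_eq_add_of_le ha1
    obtain ⟨κ', hκ'⟩ := Nat.exists_eq_add_of_le hκ1
    have h8 : a * κ = a + κ - 1 + a' * κ' := by
      rw [ha', hκ']
      have : (1 + a') * (1 + κ') = 1 + a' + κ' + a' * κ' := by ring
      omega
    omega
  have h7 : w ^ 2 ≤ s := by
    rw [hw2]
    exact_mod_cast h6
  nlinarith

/-- The properties of the map `*` from the lines of `L` to the lines of `L'`. -/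
structure Star (L L' : Finset (Finset X)) (q : ℕ) (st : Finset X → Finset X) : Prop where
  mem : ∀ m ∈ L, st m ∈ L'
  same : ∀ m ∈ L, m ∈ L' → st m = m
  small : ∀ m ∈ L, (#(m \ st m) : ℝ) < √q
  two : ∀ m ∈ L, 2 ≤ #(st m ∩ m)

lemma one_lt_sqrt (h : Pl L q) : 1 < √(q : ℝ) := by
  rw [Real.lt_sqrt (by norm_num)]
  have : (1 : ℝ) < q := by exact_mod_cast h.two
  simpa using this

lemma exists_star (h : Pl L q) (h' : Pl L' q) (hs : Few q #(L \ L')) :
    ∃ st : Finset X → Finset X, Star L L' q st := by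
  have key : ∀ m, ∃ m', m ∈ L → (m' ∈ L' ∧ (m ∈ L' → m' = m) ∧
      (#(m \ m') : ℝ) < √q ∧ 2 ≤ #(m' ∩ m)) := by
    intro m
    by_cases hm' : m ∈ L'
    · refine ⟨m, fun hm => ⟨hm', fun _ => rfl, ?_, ?_⟩⟩
      · rw [sdiff_self, bot_eq_empty, card_empty]
        have := one_lt_sqrt h
        push_cast
        linarith
      · rw [inter_self, h.size m hm]
        have := h.two
        omega
    · by_cases hm : m ∈ L
      · rw [card_comm h h'] at hs
        obtain ⟨m', h1, h2, h3, -⟩ := near h' h hs (mem_sdiff.2 ⟨hm, hm'⟩)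
        exact ⟨m', fun _ => ⟨h1, fun h4 => absurd h4 hm', h2, h3⟩⟩
      · exact ⟨m, fun h1 => absurd h1 hm⟩
  choose st hst using key
  exact ⟨st, ⟨fun m hm => (hst m hm).1, fun m hm => (hst m hm).2.1, fun m hm => (hst m hm).2.2.1,
    fun m hm => (hst m hm).2.2.2⟩⟩

lemma Star.inj {st : Finset X → Finset X} (hst : Star L L' q st) (h : Pl L q) (h' : Pl L' q)
    (hq2 : 2 ≤ √(q : ℝ)) {m n : Finset X} (hm : m ∈ L) (hn : n ∈ L) (he : st m = st n) : m = n := by
  refine eq_of_two h hm hn ?_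
  set w := √(q : ℝ) with hw
  have hw2 : w ^ 2 = q := Real.sq_sqrt (Nat.cast_nonneg q)
  have hw1 : 1 < w := one_lt_sqrt h
  have h1 := hst.small m hm
  have h2 := hst.small n hn
  rw [← he] at h2
  have h3 := card_sdiff_add_card_inter m (st m)
  have h4 := card_sdiff_add_card_inter n (st m)
  rw [h.size m hm] at h3
  rw [h.size n hn] at h4
  have h5 : #(m ∩ st m) + #(n ∩ st m) ≤ #(st m) + #(m ∩ n) := by
    have h6 := card_union_add_card_inter (m ∩ st m) (n ∩ st m)
    rw [← h6]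
    refine add_le_add (card_le_card ?_) (card_le_card ?_)
    · exact union_subset inter_subset_right inter_subset_right
    · intro x hx
      simp only [mem_inter] at hx ⊢
      exact ⟨hx.1.1, hx.2.1⟩
  rw [h'.size _ (hst.mem m hm)] at h5
  by_contra hcon
  have h7 : #(m ∩ n) ≤ 1 := by omega
  have h3R : (#(m \ st m) : ℝ) + #(m ∩ st m) = q + 1 := by exact_mod_cast h3
  have h4R : (#(n \ st m) : ℝ) + #(n ∩ st m) = q + 1 := by exact_mod_cast h4
  have h5R : (#(m ∩ st m) : ℝ) + #(n ∩ st m) ≤ q + 1 + #(m ∩ n) := by exact_mod_cast h5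
  have h7R : (#(m ∩ n) : ℝ) ≤ 1 := by exact_mod_cast h7
  nlinarith [mul_nonneg (sub_nonneg.2 hq2) (sub_nonneg.2 hq2)]

lemma Star.bad {st : Finset X → Finset X} (hst : Star L L' q st) (h : Pl L q) (h' : Pl L' q)
    {m : Finset X} (hm : m ∈ L) {y : X} (hy : ¬ (y ∈ m ↔ y ∈ st m)) :
    (u L L' y : ℝ) < √q := by
  refine lt_of_le_of_lt ?_ (hst.small m hm)
  have hm' := hst.mem m hm
  by_cases hym : y ∈ m
  · have hys : y ∉ st m := fun h1 => hy ⟨fun _ => h1, fun _ => hym⟩
    have hc : #(m \ st m) = #(st m \ m) :=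
      card_sdiff_comm ((h.size m hm).trans (h'.size _ hm').symm)
    rw [hc, u]
    norm_cast
    refine card_le_card_of_forall_subsingleton (fun (n : Finset X) (z : X) => z ∈ n) ?_ ?_
    · intro n hn
      rw [mem_filter, mem_inter] at hn
      obtain ⟨z, hz1, hz2⟩ := h'.meet n hn.1.2 _ hm'
      refine ⟨z, mem_sdiff.2 ⟨hz2, fun hzm => ?_⟩, hz1⟩
      have hne : y ≠ z := by
        rintro rfl
        exact hys hz2
      have h1 := h.uniq n hn.1.1 m hm y z hne hn.2 hz1 hym hzm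
      rw [h1] at hn
      rw [hst.same m hm hn.1.2] at hys
      exact hys hym
    · intro z hz n hn n' hn'
      rw [mem_sdiff] at hz
      obtain ⟨hn, hn2⟩ := hn
      obtain ⟨hn', hn2'⟩ := hn'
      rw [mem_filter, mem_inter] at hn hn'
      have hne : y ≠ z := by
        rintro rfl
        exact hz.2 hym
      exact h.uniq n hn.1.1 n' hn'.1.1 y z hne hn.2 hn2 hn'.2 hn2'
  · have hys : y ∈ st m := by
      by_contra h1
      exact hy ⟨fun h2 => absurd h2 hym, fun h2 => absurd h2 h1⟩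
    rw [u]
    norm_cast
    refine card_le_card_of_forall_subsingleton (fun (n : Finset X) (z : X) => z ∈ n) ?_ ?_
    · intro n hn
      rw [mem_filter, mem_inter] at hn
      obtain ⟨z, hz1, hz2⟩ := h.meet n hn.1.1 _ hm
      refine ⟨z, mem_sdiff.2 ⟨hz2, fun hzm => ?_⟩, hz1⟩
      have hne : y ≠ z := by
        rintro rfl
        exact hym hz2
      have h1 := h'.uniq n hn.1.2 _ hm' y z hne hn.2 hz1 hys hzm
      have h2 : st m ∈ L := h1 ▸ hn.1.1
      have h3 := eq_of_two h h2 hm (hst.two m hm)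
      rw [h3] at hys
      exact hym hys
    · intro z hz n hn n' hn'
      rw [mem_sdiff] at hz
      obtain ⟨hn, hn2⟩ := hn
      obtain ⟨hn', hn2'⟩ := hn'
      rw [mem_filter, mem_inter] at hn hn'
      have hne : y ≠ z := by
        rintro rfl
        exact hym hz.1
      exact h.uniq n hn.1.1 n' hn'.1.1 y z hne hn.2 hn2 hn'.2 hn2'

/-- points with many lines of `L \ L'` are few -/
lemma many (h : Pl L q) (L' : Finset (Finset X)) (T : Finset X) {c : ℝ}
    (hT : ∀ y ∈ T, c ≤ (r L L' y : ℝ)) :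
    2 * (#T * c) ≤ 2 * #(L \ L') + (#T * #T - #T) := by
  have h1 : (#T : ℝ) * c ≤ ∑ y ∈ T, (r L L' y : ℝ) := by
    have := card_nsmul_le_sum T (fun y => (r L L' y : ℝ)) c hT
    simpa using this
  have h2 : ∑ y ∈ T, r L L' y = ∑ m ∈ L \ L', #{y ∈ T | y ∈ m} := by
    have := sum_card_bipartiteAbove_eq_sum_card_bipartiteBelow (s := T) (t := L \ L')
      (fun (x : X) (n : Finset X) => x ∈ n)
    simpa only [bipartiteAbove, bipartiteBelow, r] using this
  have h3 : ∑ m ∈ L \ L', #(({y ∈ T | y ∈ m} : Finset X).offDiag) ≤ #T.offDiag := by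
    rw [← card_biUnion]
    · refine card_le_card ?_
      intro p hp
      rw [mem_biUnion] at hp
      obtain ⟨m, -, hp⟩ := hp
      rw [mem_offDiag, mem_filter, mem_filter] at hp
      rw [mem_offDiag]
      exact ⟨hp.1.1, hp.2.1.1, hp.2.2⟩
    · intro m hm n hn hmn
      rw [Function.onFun, disjoint_left]
      intro p hp hp'
      rw [mem_offDiag, mem_filter, mem_filter] at hp hp'
      rw [mem_coe, mem_sdiff] at hm hn
      exact hmn (h.uniq m hm.1 n hn.1 p.1 p.2 hp.2.2 hp.1.2 hp.2.1.2 hp'.1.2 hp'.2.1.2)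
  have h4 : 2 * ∑ m ∈ L \ L', #{y ∈ T | y ∈ m} ≤
      2 * #(L \ L') + ∑ m ∈ L \ L', #(({y ∈ T | y ∈ m} : Finset X).offDiag) := by
    rw [mul_sum, mul_comm 2 #(L \ L'), ← smul_eq_mul, ← sum_const, ← sum_add_distrib]
    refine sum_le_sum fun m _ => ?_
    rw [offDiag_card]
    generalize #({y ∈ T | y ∈ m} : Finset X) = k
    rcases k with _ | k
    · simp
    · have : (k + 1) * (k + 1) - (k + 1) = k * (k + 1) := by
        have : (k + 1) * (k + 1) = k * (k + 1) + (k + 1) := by ring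
        omega
      rw [this]
      nlinarith [Nat.zero_le k, sq_nonneg ((k : ℤ) - 1)]
  rw [offDiag_card] at h3
  have h5 : (2 * ∑ y ∈ T, r L L' y) + #T ≤ 2 * #(L \ L') + #T * #T := by
    have : #T ≤ #T * #T := Nat.le_mul_self _
    rw [h2]
    omega
  have h5R : 2 * (∑ y ∈ T, (r L L' y : ℝ)) + #T ≤ 2 * #(L \ L') + #T * #T := by exact_mod_cast h5
  linarith



/-- a set of points with few common lines is small -/
lemma small_set (h : Pl L q) (hs : Few q #(L \ L')) (T : Finset X)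
    (hT : ∀ y ∈ T, (u L L' y : ℝ) < √q) :
    (#T : ℝ) ≤ √q + 1 / 2 ∧ q * #T ≤ 2 * #(L \ L') := by
  set w := √(q : ℝ) with hw
  have hw2 : w ^ 2 = q := Real.sq_sqrt (Nat.cast_nonneg q)
  have hw1 : 1 < w := one_lt_sqrt h
  set s := #(L \ L') with hsdef
  have hs' : (s : ℝ) ≤ w ^ 2 * w - w ^ 2 := by
    rw [hw2]
    exact hs
  have hr : ∀ y ∈ T, w ^ 2 - w + 1 ≤ (r L L' y : ℝ) := by
    intro y hy
    have h1 : (r L L' y : ℝ) + u L L' y = q + 1 := by exact_mod_cast r_add_u h L' y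
    have h2 := hT y hy
    rw [← hw2] at h1
    linarith
  have ht : (#T : ℝ) ≤ w + 1 / 2 := by
    by_contra hcon
    push Not at hcon
    have hw0 : 0 ≤ w + 1 / 2 := by linarith
    have h1 : ⌊w + 1 / 2⌋₊ + 1 ≤ #T := by
      have := (Nat.floor_lt hw0).2 hcon
      omega
    obtain ⟨T', hT', hc⟩ := exists_subset_card_eq h1
    have h2 := many h L' T' (fun y hy => hr y (hT' hy))
    rw [← hsdef] at h2
    have h3 : w + 1 / 2 < (#T' : ℝ) := by
      rw [hc]
      push_cast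
      exact Nat.lt_floor_add_one _
    have h4 : (#T' : ℝ) ≤ w + 3 / 2 := by
      rw [hc]
      push_cast
      have := Nat.floor_le hw0
      linarith
    set j := (#T' : ℝ) with hj
    have h5 : 0 < w ^ 2 - 3 / 2 * w + 3 / 4 := by nlinarith [sq_nonneg (w - 3 / 4)]
    have h6 : j * (w ^ 2 - 3 / 2 * w + 3 / 4) ≤ s := by nlinarith
    have h7 : (w + 1 / 2) * (w ^ 2 - 3 / 2 * w + 3 / 4) < j * (w ^ 2 - 3 / 2 * w + 3 / 4) :=
      mul_lt_mul_of_pos_right h3 h5
    nlinarith
  refine ⟨ht, ?_⟩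
  have h2 := many h L' T hr
  rw [← hsdef] at h2
  have ht0 : (0 : ℝ) ≤ #T := Nat.cast_nonneg _
  have h3 : (q : ℝ) * #T ≤ 2 * s := by
    rw [← hw2]
    have h4 : 0 ≤ w ^ 2 - 3 * w + 5 / 2 := by nlinarith [sq_nonneg (w - 3 / 2)]
    have h5 : (#T : ℝ) * (2 * w ^ 2 - 3 * w + 5 / 2) ≤ 2 * s := by nlinarith
    nlinarith
  exact_mod_cast h3

/-- lines which pairwise meet in a small set are concurrent -/
lemma concur (h' : Pl L' q) (T : Finset X) (hT : (#T : ℝ) ≤ √q + 1 / 2) (F : Finset (Finset X))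
    (hF : F ⊆ L') (hcard : #F = q + 1)
    (hFT : ∀ m ∈ F, ∀ n ∈ F, m ≠ n → ∀ z, z ∈ m → z ∈ n → z ∈ T) :
    ∃ z, ∀ m ∈ F, z ∈ m := by
  have hq := h'.two
  have hT2 : #T * #T < q + #T := by
    rcases Nat.eq_zero_or_pos #T with h0 | h0
    · rw [h0]
      omega
    · have h1 : (#T : ℝ) * #T < q + #T := by
        have h2 : √(q : ℝ) * √q = q := Real.mul_self_sqrt (Nat.cast_nonneg q)
        have h3 : (1 : ℝ) ≤ #T := by exact_mod_cast h0
        rw [← h2]
        nlinarith [Real.sqrt_nonneg (q : ℝ)]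
      exact_mod_cast h1
  have hFne : F.Nonempty := by
    rw [← card_pos]
    omega
  obtain ⟨K, hK⟩ := hFne
  -- some point of `T` is on many lines of `F`
  have h1 : #(F.erase K) ≤ ∑ z ∈ T, #{n ∈ F.erase K | z ∈ n ∧ z ∈ K} := by
    refine le_trans (card_le_card ?_) card_biUnion_le
    intro n hn
    rw [mem_erase] at hn
    obtain ⟨z, hz1, hz2⟩ := h'.meet n (hF hn.2) K (hF hK)
    rw [mem_biUnion]
    exact ⟨z, hFT n hn.2 K hK hn.1 z hz1 hz2, mem_filter.2 ⟨mem_erase.2 hn, hz1, hz2⟩⟩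
  rw [card_erase_of_mem hK, hcard] at h1
  have h2 : ∃ z ∈ T, q ≤ #T * #{n ∈ F.erase K | z ∈ n ∧ z ∈ K} := by
    by_contra hcon
    push Not at hcon
    have hTne : T.Nonempty := by
      rw [nonempty_iff_ne_empty]
      rintro rfl
      simp at h1
      omega
    have h3 : ∑ z ∈ T, #T * #{n ∈ F.erase K | z ∈ n ∧ z ∈ K} < ∑ _z ∈ T, q :=
      sum_lt_sum_of_nonempty hTne hcon
    rw [← mul_sum, sum_const, smul_eq_mul] at h3
    have h4 : #T * q ≤ #T * ∑ z ∈ T, #{n ∈ F.erase K | z ∈ n ∧ z ∈ K} :=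
      Nat.mul_le_mul le_rfl (by omega)
    omega
  obtain ⟨z, hzT, hz⟩ := h2
  have hzK : z ∈ K := by
    by_contra hcon
    have : ({n ∈ F.erase K | z ∈ n ∧ z ∈ K} : Finset (Finset X)) = ∅ := by
      rw [filter_eq_empty_iff]
      intro n _ h3
      exact hcon h3.2
    rw [this, card_empty, mul_zero] at hz
    omega
  have h3 : #{n ∈ F.erase K | z ∈ n ∧ z ∈ K} + 1 ≤ #{n ∈ F | z ∈ n} := by
    have h4 : insert K ({n ∈ F.erase K | z ∈ n ∧ z ∈ K} : Finset (Finset X)) ⊆ {n ∈ F | z ∈ n} := by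
      intro n hn
      rw [mem_insert] at hn
      rw [mem_filter]
      rcases hn with rfl | hn
      · exact ⟨hK, hzK⟩
      · rw [mem_filter, mem_erase] at hn
        exact ⟨hn.1.2, hn.2.1⟩
    have h5 := card_le_card h4
    rw [card_insert_of_notMem] at h5
    · exact h5
    · rw [mem_filter, mem_erase]
      tauto
  refine ⟨z, fun m hm => ?_⟩
  by_contra hcon
  have h4 : #{n ∈ F | z ∈ n} ≤ #T := by
    refine card_le_card_of_forall_subsingleton (fun (n : Finset X) (y : X) => y ∈ n ∧ y ∈ m) ?_ ?_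
    · intro n hn
      rw [mem_filter] at hn
      obtain ⟨y, hy1, hy2⟩ := h'.meet n (hF hn.1) m (hF hm)
      have hne : n ≠ m := by
        rintro rfl
        exact hcon hn.2
      exact ⟨y, hFT n hn.1 m hm hne y hy1 hy2, hy1, hy2⟩
    · intro y _ n hn n' hn'
      obtain ⟨hn, hn2, hn3⟩ := hn
      obtain ⟨hn', hn2', -⟩ := hn'
      rw [mem_filter] at hn hn'
      have hne : z ≠ y := by
        rintro rfl
        exact hcon hn3
      exact h'.uniq n (hF hn.1) n' (hF hn'.1) z y hne hn.2 hn2 hn'.2 hn2'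
  set d := #{n ∈ F.erase K | z ∈ n ∧ z ∈ K} with hd
  have h5 : #T * (d + 1) ≤ #T * #T := Nat.mul_le_mul le_rfl (h3.trans h4)
  have h6 : 0 < #T := card_pos.2 ⟨z, hzT⟩
  have h7 : #T * (d + 1) = #T * d + #T := by ring
  omega

/-- THE THEOREM for two planes on the same set of points. -/
theorem main [Fintype X] (h : Pl L q) (h' : Pl L' q) (hs : Few q #(L \ L')) :
    ∃ ρ : Equiv.Perm X, (∀ m ∈ L, m.image ρ ∈ L') ∧ q * #{x | ρ x ≠ x} ≤ 2 * #(L \ L') := by
  classical
  rcases (L' \ L).eq_empty_or_nonempty with he | ⟨m₀, hm₀⟩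
  · have h1 : L' ⊆ L := sdiff_eq_empty_iff_subset.1 he
    have h2 : L' = L := eq_of_subset_of_card_le h1 (by rw [h.card, h'.card])
    refine ⟨Equiv.refl X, fun m hm => ?_, ?_⟩
    · rw [h2]
      simpa using hm
    · simp
  obtain ⟨-, -, -, -, hq2⟩ := near h h' hs hm₀
  obtain ⟨st, hst⟩ := exists_star h h' hs
  set T : Finset X := {y | ∃ m ∈ L, ¬ (y ∈ m ↔ y ∈ st m)} with hTdef
  have hT : ∀ y ∈ T, (u L L' y : ℝ) < √q := by
    intro y hy
    rw [hTdef, mem_filter] at hy
    obtain ⟨-, m, hm, hy⟩ := hy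
    exact hst.bad h h' hm hy
  have hnT : ∀ y, y ∉ T → ∀ m ∈ L, (y ∈ m ↔ y ∈ st m) := by
    intro y hy m hm
    by_contra hcon
    exact hy (mem_filter.2 ⟨mem_univ _, m, hm, hcon⟩)
  obtain ⟨hT1, hT2⟩ := small_set h hs T hT
  have key : ∀ x, ∃ z, (∀ m ∈ L, x ∈ m → z ∈ st m) ∧ (x ∉ T → z = x) := by
    intro x
    by_cases hx : x ∈ T
    · have hinj : Set.InjOn st ({m ∈ L | x ∈ m} : Finset (Finset X)) := by
        intro m hm n hn he
        rw [mem_coe, mem_filter] at hm hn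
        exact hst.inj h h' hq2 hm.1 hn.1 he
      obtain ⟨z, hz⟩ := concur h' T hT1 (({m ∈ L | x ∈ m} : Finset (Finset X)).image st) (by
          intro n hn
          rw [mem_image] at hn
          obtain ⟨m, hm, rfl⟩ := hn
          rw [mem_filter] at hm
          exact hst.mem m hm.1) (by
          rw [card_image_of_injOn hinj, h.deg]) (by
          intro m' hm' n' hn' hne z hz hz'
          rw [mem_image] at hm' hn'
          obtain ⟨m, hm, rfl⟩ := hm'
          obtain ⟨n, hn, rfl⟩ := hn'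
          rw [mem_filter] at hm hn
          by_contra hzT
          have h1 := (hnT z hzT m hm.1).2 hz
          have h2 := (hnT z hzT n hn.1).2 hz'
          have h3 : z ≠ x := by
            rintro rfl
            exact hzT hx
          exact hne (by rw [h.uniq m hm.1 n hn.1 z x h3 h1 hm.2 h2 hn.2]))
      exact ⟨z, fun m hm hxm => hz _ (mem_image_of_mem st (mem_filter.2 ⟨hm, hxm⟩)),
        fun h1 => absurd hx h1⟩
    · exact ⟨x, fun m hm hxm => (hnT x hx m hm).1 hxm, fun _ => rfl⟩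
  choose ρ hρ1 hρ2 using key
  have hinj : Function.Injective ρ := by
    intro x x' he
    by_contra hne
    have h1 : #(({m ∈ L | x ∈ m} ∪ {m ∈ L | x' ∈ m} : Finset (Finset X)).image st) ≤
        #{n ∈ L' | ρ x ∈ n} := by
      refine card_le_card ?_
      intro n hn
      rw [mem_image] at hn
      obtain ⟨m, hm, rfl⟩ := hn
      rw [mem_union, mem_filter, mem_filter] at hm
      rw [mem_filter]
      rcases hm with hm | hm
      · exact ⟨hst.mem m hm.1, hρ1 x m hm.1 hm.2⟩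
      · refine ⟨hst.mem m hm.1, ?_⟩
        rw [he]
        exact hρ1 x' m hm.1 hm.2
    rw [card_image_of_injOn, h'.deg] at h1
    · have h2 := card_union_add_card_inter ({m ∈ L | x ∈ m} : Finset (Finset X)) {m ∈ L | x' ∈ m}
      rw [h.deg, h.deg] at h2
      have h3 : #(({m ∈ L | x ∈ m} : Finset (Finset X)) ∩ {m ∈ L | x' ∈ m}) ≤ 1 := by
        rw [card_le_one]
        intro m hm n hn
        simp only [mem_inter, mem_filter] at hm hn
        exact h.uniq m hm.1.1 n hn.1.1 x x' hne hm.1.2 hm.2.2 hn.1.2 hn.2.2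
      have := h.two
      omega
    · intro m hm n hn he'
      rw [mem_coe, mem_union, mem_filter, mem_filter] at hm hn
      refine hst.inj h h' hq2 ?_ ?_ he'
      · rcases hm with hm | hm <;> exact hm.1
      · rcases hn with hn | hn <;> exact hn.1
  refine ⟨Equiv.ofBijective ρ (Finite.injective_iff_bijective.1 hinj), fun m hm => ?_, ?_⟩
  · have h1 : m.image ρ = st m := by
      refine eq_of_subset_of_card_le ?_ ?_
      · intro y hy
        rw [mem_image] at hy
        obtain ⟨x, hx, rfl⟩ := hy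
        exact hρ1 x m hm hx
      · rw [card_image_of_injective _ hinj, h.size m hm, h'.size _ (hst.mem m hm)]
    have h2 : m.image (Equiv.ofBijective ρ (Finite.injective_iff_bijective.1 hinj)) = m.image ρ := rfl
    rw [h2, h1]
    exact hst.mem m hm
  · refine le_trans (Nat.mul_le_mul le_rfl (card_le_card ?_)) hT2
    intro x hx
    rw [mem_filter] at hx
    by_contra hcon
    exact hx.2 (hρ2 x hcon)

end Pool.Agent.Lib.MP595dad.AC
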